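import Mathlib

/-!
# Welded string links up to self-crossing changes, in terms of Gauss diagrams

A virtual string link diagram, up to planar isotopy and the virtual and mixed moves, is the same
as its Gauss diagram: `n` strands with signed arrows, one for every classical crossing, pointing
from the over-passage (the tail) to the under-passage (the head). A Gauss diagram is recorded by
a list of all ends of its arrows, in an order which is compatible with the orders along the
strands; the relative order of ends on different strands does not matter (move `far`), and neither
do the names of the arrows (move `relabel`).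
-/

set_option autoImplicit false

namespace Pool.Agent.W612.WSL

/-- An arrow (classical crossing) of a Gauss diagram on `n` strands: its name, the strand `src` of
its tail (the over-passage), the strand `tgt` of its head (the under-passage), and its sign
(`true` for a positive crossing). -/
@[ext]
structure Arrow (n : ℕ) where
  name : ℕ
  src : Fin n
  tgt : Fin n
  pos : Bool
deriving DecidableEq

/-- An end of an arrow: `(α, true)` is the tail of `α` and `(α, false)` is the head of `α`. -/
abbrev End (n : ℕ) : Type := Arrow n × Bool

/-- The strand on which an end lies. -/
def strand {n : ℕ} (x : End n) : Fin n := if x.2 then x.1.src else x.1.tgt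

/-- A list of ends is a Gauss diagram if the tail and the head of every arrow occur exactly once,
different arrows having different names. -/
def IsGauss {n : ℕ} (w : List (End n)) : Prop :=
  (w.map fun x => (x.1.name, x.2)).Nodup ∧ ∀ x ∈ w, (x.1, !x.2) ∈ w

/-- Gauss diagrams on `n` strands. -/
abbrev Diagram (n : ℕ) : Type := {w : List (End n) // IsGauss w}

/-- Renaming of an arrow. -/
def Arrow.rename {n : ℕ} (g : ℕ → ℕ) (α : Arrow n) : Arrow n := { α with name := g α.name }

/-- Renaming of the arrow of an end. -/
def ren {n : ℕ} (g : ℕ → ℕ) (x : End n) : End n := (x.1.rename g, x.2)

/-- The two given ends, in the given order (`true`) or in the other order (`false`). -/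
def order {n : ℕ} (first : Bool) (x y : End n) : End n × End n := if first then (x, y) else (y, x)

/-- The three pairs of adjacent ends in a third Reidemeister move with crossings `a` (top strand
over middle strand), `b` (top strand over bottom strand) and `c` (middle strand over bottom
strand). The side `δ` of `c` on which the top strand passes and the signs determine the order of
the crossings on the strands: `a` comes before `b` on the top strand iff `δ` times the product of
the three signs is `1`, `a` comes before `c` on the middle strand iff `δ` times the sign of `a` is
`1`, and `b` comes before `c` on the bottom strand iff `δ` times the sign of `b` is `1`. -/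
def triangle {n : ℕ} (δ : Bool) (a b c : Arrow n) : List (End n × End n) :=
  [order ((δ == a.pos) == (b.pos == c.pos)) (a, true) (b, true),
   order (δ == a.pos) (a, false) (c, true),
   order (δ == b.pos) (b, false) (c, false)]

/-- The generalized Reidemeister moves for Gauss diagrams (the virtual and mixed moves do not
change the Gauss diagram): renaming of the arrows, exchange of neighbours in the list which lie on
different strands, and the classical moves R1, R2 and R3 in all variants. -/
inductive Reidemeister {n : ℕ} : List (End n) → List (End n) → Prop
  | rename (g : ℕ → ℕ) (hg : Function.Injective g) (w : List (End n)) :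
      Reidemeister w (w.map (ren g))
  | far (x y : End n) (h : strand x ≠ strand y) (A B : List (End n)) :
      Reidemeister (A ++ x :: y :: B) (A ++ y :: x :: B)
  | r1 (α : Arrow n) (h : α.src = α.tgt) (e : Bool) (A B : List (End n)) :
      Reidemeister (A ++ (α, e) :: (α, !e) :: B) (A ++ B)
  | r2_parallel (α β : Arrow n) (hs : α.src = β.src) (ht : α.tgt = β.tgt) (hp : α.pos ≠ β.pos)
      (e : Bool) (A B C : List (End n)) :
      Reidemeister (A ++ (α, e) :: (β, e) :: B ++ (α, !e) :: (β, !e) :: C) (A ++ B ++ C)
  | r2_opposite (α β : Arrow n) (hs : α.src = β.src) (ht : α.tgt = β.tgt) (hp : α.pos ≠ β.pos)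
      (e : Bool) (A B C : List (End n)) :
      Reidemeister (A ++ (α, e) :: (β, e) :: B ++ (β, !e) :: (α, !e) :: C) (A ++ B ++ C)
  | r3 (δ : Bool) (a b c : Arrow n) (hs : a.src = b.src) (hm : a.tgt = c.src)
      (ht : b.tgt = c.tgt) (p q r : End n × End n)
      (h : [p, q, r].Perm (triangle δ a b c)) (A B C D : List (End n)) :
      Reidemeister
        (A ++ p.1 :: p.2 :: B ++ q.1 :: q.2 :: C ++ r.1 :: r.2 :: D)
        (A ++ p.2 :: p.1 :: B ++ q.2 :: q.1 :: C ++ r.2 :: r.1 :: D)

/-- Overcrossings commute: two adjacent tails on a strand are exchanged. -/
inductive OvercrossingsCommute {n : ℕ} : List (End n) → List (End n) → Prop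
  | mk (α β : Arrow n) (h : α.src = β.src) (A B : List (End n)) :
      OvercrossingsCommute (A ++ (α, true) :: (β, true) :: B) (A ++ (β, true) :: (α, true) :: B)

/-- The arrow of the crossing obtained by a crossing change: head and tail are exchanged and the
sign is changed. -/
def Arrow.rev {n : ℕ} (α : Arrow n) : Arrow n where
  name := α.name
  src := α.tgt
  tgt := α.src
  pos := !α.pos

/-- Self-crossing change: a crossing whose two passages lie on the same strand is changed. -/
inductive SelfCrossingChange {n : ℕ} : List (End n) → List (End n) → Prop
  | mk (α : Arrow n) (h : α.src = α.tgt) (e : Bool) (A B C : List (End n)) :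
      SelfCrossingChange (A ++ (α, e) :: B ++ (α, !e) :: C)
        (A ++ (α.rev, !e) :: B ++ (α.rev, e) :: C)

/-- The moves defining `wSL_n^sc`. -/
def Move {n : ℕ} (v w : List (End n)) : Prop :=
  Reidemeister v w ∨ OvercrossingsCommute v w ∨ SelfCrossingChange v w

/-- The set `wSL_n^sc` of welded string links on `n` strands up to self-crossing changes: Gauss
diagrams modulo the moves. -/
def WSLsc (n : ℕ) : Type := Quot fun v w : Diagram n => Move v.1 w.1

/-- Stacking: the arrows are renamed so that the names in the two diagrams are different. -/
def stack {n : ℕ} (v w : List (End n)) : List (End n) :=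
  v.map (ren fun k => 2 * k) ++ w.map (ren fun k => 2 * k + 1)

/-- A diagram is monotone if its arrows can be ordered such that this order is compatible with the
orders along the strands; every arrow then joins different strands. Monotone diagrams are the
Gauss diagrams of welded pure braids. The list below consists of the two ends of the first arrow,
followed by the two ends of the second arrow, and so on. -/
def IsMonotone {n : ℕ} (w : List (End n)) : Prop :=
  ∃ l : List (Arrow n), (∀ α ∈ l, α.src ≠ α.tgt) ∧ w = l.flatMap fun α => [(α, true), (α, false)]

end Pool.Agent.W612.WSL
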