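import Mathlib
import Pool.Agent.W612.WSL.Defs

/-!
# The monoid `wSL_n^sc`
-/

set_option autoImplicit false

namespace Pool.Agent.W612.WSL

variable {n : ℕ}

theorem strand_ren (g : ℕ → ℕ) (x : End n) : strand (ren g x) = strand x := rfl

theorem ren_ren (f g : ℕ → ℕ) (x : End n) : ren f (ren g x) = ren (f ∘ g) x := rfl

theorem ren_comp (f g : ℕ → ℕ) : (ren f ∘ ren g : End n → End n) = ren (f ∘ g) := rfl

theorem rev_rename (g : ℕ → ℕ) (α : Arrow n) : (α.rename g).rev = α.rev.rename g := rfl

theorem order_ren (g : ℕ → ℕ) (b : Bool) (x y : End n) :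
    order b (ren g x) (ren g y) = ((ren g (order b x y).1), ren g (order b x y).2) := by
  cases b <;> rfl

/-- a move in a context, with renaming -/
theorem move_context {v w : List (End n)} (h : Move v w) (g : ℕ → ℕ) (X Y : List (End n)) :
    Move (X ++ v.map (ren g) ++ Y) (X ++ w.map (ren g) ++ Y) ∨
      ∃ f : ℕ → ℕ, Function.Injective f ∧ w = v.map (ren f) := by
  rcases h with h | h | h
  · cases h with
    | rename f hf w => exact Or.inr ⟨f, hf, rfl⟩
    | far x y h A B =>
      refine Or.inl (Or.inl ?_)
      have := Reidemeister.far (ren g x) (ren g y) h (X ++ A.map (ren g)) (B.map (ren g) ++ Y)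
      simpa [List.append_assoc] using this
    | r1 α h e A B =>
      refine Or.inl (Or.inl ?_)
      have := Reidemeister.r1 (α.rename g) h e (X ++ A.map (ren g)) (B.map (ren g) ++ Y)
      simpa [List.append_assoc, ren] using this
    | r2_parallel α β hs ht hp e A B C =>
      refine Or.inl (Or.inl ?_)
      have := Reidemeister.r2_parallel (α.rename g) (β.rename g) hs ht hp e
        (X ++ A.map (ren g)) (B.map (ren g)) (C.map (ren g) ++ Y)
      simpa [List.append_assoc, ren] using this
    | r2_opposite α β hs ht hp e A B C =>
      refine Or.inl (Or.inl ?_)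
      have := Reidemeister.r2_opposite (α.rename g) (β.rename g) hs ht hp e
        (X ++ A.map (ren g)) (B.map (ren g)) (C.map (ren g) ++ Y)
      simpa [List.append_assoc, ren] using this
    | r3 δ a b c hs hm ht p q r h A B C D =>
      refine Or.inl (Or.inl ?_)
      have h' : [(ren g p.1, ren g p.2), (ren g q.1, ren g q.2), (ren g r.1, ren g r.2)].Perm
          (triangle δ (a.rename g) (b.rename g) (c.rename g)) := by
        have h1 := h.map fun s : End n × End n => (ren g s.1, ren g s.2)
        refine h1.trans (List.Perm.of_eq ?_)
        simp only [triangle, List.map_cons, List.map_nil]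
        have e1 : ∀ (b : Bool) (x y : End n), (ren g (order b x y).1, ren g (order b x y).2) =
            order b (ren g x) (ren g y) := fun b x y => (order_ren g b x y).symm
        simp only [e1]
        rfl
      have := Reidemeister.r3 δ (a.rename g) (b.rename g) (c.rename g) hs hm ht _ _ _ h'
        (X ++ A.map (ren g)) (B.map (ren g)) (C.map (ren g)) (D.map (ren g) ++ Y)
      simpa [List.append_assoc] using this
  · cases h with
    | mk α β h A B =>
      refine Or.inl (Or.inr (Or.inl ?_))
      have := OvercrossingsCommute.mk (α.rename g) (β.rename g) h (X ++ A.map (ren g))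
        (B.map (ren g) ++ Y)
      simpa [List.append_assoc, ren] using this
  · cases h with
    | mk α h e A B C =>
      refine Or.inl (Or.inr (Or.inr ?_))
      have := SelfCrossingChange.mk (α.rename g) h e (X ++ A.map (ren g)) (B.map (ren g))
        (C.map (ren g) ++ Y)
      simpa [List.append_assoc, ren, rev_rename] using this

theorem move_stack_left {v w : List (End n)} (h : Move v w) (u : List (End n)) :
    Move (stack v u) (stack w u) := by
  rcases move_context h (fun k => 2 * k) [] (u.map (ren fun k => 2 * k + 1)) with h1 | ⟨f, hf, rfl⟩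
  · exact h1
  · refine Or.inl ?_
    have h2 := Reidemeister.rename (n := n) (fun m => if m % 2 = 0 then 2 * f (m / 2) else m)
      (by
        intro a b hab
        simp only at hab
        split_ifs at hab with h1 h2 h2
        · have := @hf (a / 2) (b / 2) (by omega)
          omega
        · omega
        · omega
        · exact hab) (stack v u)
    convert h2 using 1
    simp only [stack, List.map_append, List.map_map]
    congr 1
    · apply List.map_congr_left
      intro x _
      simp [ren, Arrow.rename]
    · apply List.map_congr_left
      intro x _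
      simp [ren, Arrow.rename]

theorem move_stack_right {v w : List (End n)} (h : Move v w) (u : List (End n)) :
    Move (stack u v) (stack u w) := by
  rcases move_context h (fun k => 2 * k + 1) (u.map (ren fun k => 2 * k)) [] with h1 | ⟨f, hf, rfl⟩
  · simpa [stack] using h1
  · refine Or.inl ?_
    have h2 := Reidemeister.rename (n := n) (fun m => if m % 2 = 0 then m else 2 * f (m / 2) + 1)
      (by
        intro a b hab
        simp only at hab
        split_ifs at hab with h1 h2 h2
        · exact hab
        · omega
        · omega
        · have := @hf (a / 2) (b / 2) (by omega)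
          omega) (stack u v)
    convert h2 using 1
    simp only [stack, List.map_append, List.map_map]
    congr 1
    · apply List.map_congr_left
      intro x _
      simp [ren, Arrow.rename]
    · apply List.map_congr_left
      intro x _
      have h4 : (2 * x.1.name + 1) / 2 = x.1.name := by omega
      simp [ren, Arrow.rename, h4]

theorem IsGauss.stack {v w : List (End n)} (hv : IsGauss v) (hw : IsGauss w) :
    IsGauss (stack v w) := by
  constructor
  · simp only [WSL.stack, List.map_append, List.map_map]
    rw [List.nodup_append]
    refine ⟨?_, ?_, ?_⟩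
    · have h := hv.1.map (f := fun p : ℕ × Bool => (2 * p.1, p.2))
        (by rintro ⟨a, b⟩ ⟨c, d⟩ h; simp only [Prod.mk.injEq] at h ⊢; exact ⟨by omega, h.2⟩)
      rw [List.map_map] at h
      exact h
    · have h := hw.1.map (f := fun p : ℕ × Bool => (2 * p.1 + 1, p.2))
        (by rintro ⟨a, b⟩ ⟨c, d⟩ h; simp only [Prod.mk.injEq] at h ⊢; exact ⟨by omega, h.2⟩)
      rw [List.map_map] at h
      exact h
    · intro a ha b hb hab
      subst hab
      simp only [List.mem_map, Function.comp_apply] at ha hb
      obtain ⟨x, -, hx⟩ := ha
      obtain ⟨y, -, hy⟩ := hb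
      have h1 := congrArg Prod.fst (hx.trans hy.symm)
      simp only [ren, Arrow.rename] at h1
      omega
  · intro x hx
    simp only [WSL.stack, List.mem_append, List.mem_map] at hx ⊢
    rcases hx with ⟨y, hy, rfl⟩ | ⟨y, hy, rfl⟩
    · exact Or.inl ⟨_, hv.2 y hy, rfl⟩
    · exact Or.inr ⟨_, hw.2 y hy, rfl⟩

theorem isGauss_nil : IsGauss ([] : List (End n)) := ⟨List.nodup_nil, by simp⟩

/-- Stacking of Gauss diagrams. -/
def Diagram.mul (v w : Diagram n) : Diagram n := ⟨stack v.1 w.1, v.2.stack w.2⟩

/-- The class of a diagram. -/
def cls (v : Diagram n) : WSLsc n := Quot.mk _ v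

theorem cls_eq {v w : Diagram n} (h : Move v.1 w.1) : cls v = cls w := Quot.sound h

/-- The monoid structure of `wSL_n^sc`: the product is stacking, the neutral element is the
diagram without crossings. -/
instance : Monoid (WSLsc n) where
  mul := Quot.map₂ Diagram.mul (fun u _ _ h => move_stack_right h u.1)
    (fun _ _ u h => move_stack_left h u.1)
  one := cls ⟨[], isGauss_nil⟩
  mul_assoc := by
    rintro ⟨a⟩ ⟨b⟩ ⟨c⟩
    refine cls_eq (v := (a.mul b).mul c) (w := a.mul (b.mul c)) (Or.inl ?_)
    have h2 := Reidemeister.rename (n := n)
      (fun m => if m % 4 = 0 then m / 2 else if m % 4 = 2 then m - 1 else 2 * m + 1)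
      (by
        intro a b hab
        simp only at hab
        split_ifs at hab <;> omega) (stack (stack a.1 b.1) c.1)
    show Reidemeister (stack (stack a.1 b.1) c.1) (stack a.1 (stack b.1 c.1))
    convert h2 using 1
    simp only [stack, List.map_append, List.map_map, List.append_assoc]
    congr 1
    · apply List.map_congr_left
      intro x _
      have h3 : (2 * (2 * x.1.name)) % 4 = 0 := by omega
      have h4 : 2 * (2 * x.1.name) / 2 = 2 * x.1.name := by omega
      simp [ren, Arrow.rename, h3]
    · congr 1
      · apply List.map_congr_left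
        intro x _
        have h3 : ¬ (2 * (2 * x.1.name + 1)) % 4 = 0 := by omega
        have h4 : (2 * (2 * x.1.name + 1)) % 4 = 2 := by omega
        have h5 : 2 * (2 * x.1.name + 1) - 1 = 2 * (2 * x.1.name) + 1 := by omega
        simp [ren, Arrow.rename, h4, h5]
      · apply List.map_congr_left
        intro x _
        have h3 : ¬ (2 * x.1.name + 1) % 4 = 0 := by omega
        have h4 : ¬ (2 * x.1.name + 1) % 4 = 2 := by omega
        simp [ren, Arrow.rename, h3, h4]
  one_mul := by
    rintro ⟨a⟩
    refine (cls_eq (v := a) (w := Diagram.mul ⟨[], isGauss_nil⟩ a) (Or.inl ?_)).symm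
    exact Reidemeister.rename (fun k => 2 * k + 1) (by intro a b h; simp only at h; omega) a.1
  mul_one := by
    rintro ⟨a⟩
    refine (cls_eq (v := a) (w := Diagram.mul a ⟨[], isGauss_nil⟩) (Or.inl ?_)).symm
    have := Reidemeister.rename (fun k => 2 * k) (by intro a b h; simp only at h; omega) a.1
    show Reidemeister a.1 (stack a.1 [])
    simpa [stack] using this

theorem cls_mul (v w : Diagram n) : cls v * cls w = cls (v.mul w) := rfl

theorem cls_one : (1 : WSLsc n) = cls ⟨[], isGauss_nil⟩ := rfl

end Pool.Agent.W612.WSL
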