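import Mathlib
import Pool.Agent.W612.WSL.Defs

/-!
# A quadratic invariant of `wSL_n^sc`
-/

set_option autoImplicit false

namespace Pool.Agent.W612.WSL

variable {n : ℕ}

/-- the sign of an arrow -/
def Arrow.sgn (α : Arrow n) : ℤ := if α.pos then 1 else -1

/-- heads on the strand `i` of arrows from the strand `j` -/
def hd (i j : Fin n) (x : End n) : ℤ :=
  if x.2 = false ∧ x.1.src = j ∧ x.1.tgt = i then x.1.sgn else 0

/-- the coefficient of the second end -/
def co (i j : Fin n) (x : End n) : ℤ :=
  if x.1.src = i then
    ((if x.1.tgt = j then 1 else 0) - (if x.1.tgt = i then 1 else 0)) *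
      (if x.2 then x.1.sgn else -x.1.sgn)
  else 0

/-- the sum of `hd` -/
def sh (i j : Fin n) (w : List (End n)) : ℤ := (w.map (hd i j)).sum

/-- the sum of `co` -/
def sc (i j : Fin n) (w : List (End n)) : ℤ := (w.map (co i j)).sum

/-- half of the invariant -/
def ph (i j : Fin n) : List (End n) → ℤ
  | [] => 0
  | x :: w => hd i j x * sc i j w + ph i j w

theorem sh_append (i j : Fin n) (v w : List (End n)) : sh i j (v ++ w) = sh i j v + sh i j w := by
  simp [sh]

theorem sc_append (i j : Fin n) (v w : List (End n)) : sc i j (v ++ w) = sc i j v + sc i j w := by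
  simp [sc]

theorem sh_cons (i j : Fin n) (x : End n) (w : List (End n)) :
    sh i j (x :: w) = hd i j x + sh i j w := by
  simp [sh]

theorem sc_cons (i j : Fin n) (x : End n) (w : List (End n)) :
    sc i j (x :: w) = co i j x + sc i j w := by
  simp [sc]

theorem ph_cons (i j : Fin n) (x : End n) (w : List (End n)) :
    ph i j (x :: w) = hd i j x * sc i j w + ph i j w := rfl

theorem ph_append (i j : Fin n) (v w : List (End n)) :
    ph i j (v ++ w) = ph i j v + ph i j w + sh i j v * sc i j w := by
  induction v with
  | nil => simp [ph, sh]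
  | cons x v ih =>
    rw [List.cons_append, ph_cons, ph_cons, ih, sc_append, sh_cons]
    ring

/-- The invariant. -/
def Φ (i j : Fin n) (w : List (End n)) : ℤ := ph i j w + ph j i w

theorem hd_ren (i j : Fin n) (g : ℕ → ℕ) (x : End n) : hd i j (ren g x) = hd i j x := rfl

theorem co_ren (i j : Fin n) (g : ℕ → ℕ) (x : End n) : co i j (ren g x) = co i j x := rfl

theorem sc_map (i j : Fin n) (g : ℕ → ℕ) (w : List (End n)) :
    sc i j (w.map (ren g)) = sc i j w := by
  simp only [sc, List.map_map]
  rfl

theorem ph_map (i j : Fin n) (g : ℕ → ℕ) (w : List (End n)) :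
    ph i j (w.map (ren g)) = ph i j w := by
  induction w with
  | nil => rfl
  | cons x w ih => rw [List.map_cons, ph_cons, ph_cons, ih, sc_map, hd_ren]

theorem co_not (i j : Fin n) (α : Arrow n) (e : Bool) : co i j (α, !e) = - co i j (α, e) := by
  cases e <;> simp only [co] <;> split_ifs <;> simp_all

theorem hd_true (i j : Fin n) (α : Arrow n) : hd i j (α, true) = 0 := by simp [hd]

/-- the local contribution -/
def bil (i j : Fin n) (x y : End n) : ℤ := hd i j x * co i j y + hd j i x * co j i y

theorem swap_formula (i j : Fin n) (x y : End n) (A B : List (End n)) :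
    Φ i j (A ++ y :: x :: B) = Φ i j (A ++ x :: y :: B) + bil i j y x - bil i j x y := by
  simp only [Φ, ph_append, ph_cons, sc_cons, bil]
  ring

theorem sgn_not (α β : Arrow n) (h : α.pos ≠ β.pos) : β.sgn = - α.sgn := by
  unfold Arrow.sgn
  cases hα : α.pos <;> cases hβ : β.pos <;> simp_all

theorem hd_opp (i j : Fin n) (α β : Arrow n) (hs : α.src = β.src) (ht : α.tgt = β.tgt)
    (h : α.pos ≠ β.pos) (e : Bool) : hd i j (β, e) = - hd i j (α, e) := by
  have := sgn_not α β h
  simp only [hd, ← hs, ← ht, this]
  split_ifs <;> simp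

theorem co_opp (i j : Fin n) (α β : Arrow n) (hs : α.src = β.src) (ht : α.tgt = β.tgt)
    (h : α.pos ≠ β.pos) (e : Bool) : co i j (β, e) = - co i j (α, e) := by
  have := sgn_not α β h
  simp only [co, ← hs, ← ht, this]
  split_ifs <;> simp

theorem hd_self (i j : Fin n) (hij : i ≠ j) (α : Arrow n) (h : α.src = α.tgt) (e : Bool) :
    hd i j (α, e) = 0 := by
  unfold hd
  rw [if_neg]
  rintro ⟨-, h1, h2⟩
  exact hij (h2.symm.trans (h.symm.trans h1))

theorem hd_co_same (i j : Fin n) (hij : i ≠ j) (α : Arrow n) (e e' : Bool) :
    hd i j (α, e) * co i j (α, e') = 0 := by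
  unfold hd co
  by_cases h : α.src = j ∧ α.tgt = i
  · have : α.src ≠ i := by rw [h.1]; exact hij.symm
    simp [this]
  · have : ¬ (e = false ∧ α.src = j ∧ α.tgt = i) := fun h' => h h'.2
    simp [this]

theorem hd_co_zero (i j : Fin n) (x y : End n) (h : strand x ≠ strand y)
    (h1 : x.2 = false ∧ x.1.src = j ∧ x.1.tgt = i)
    (h2 : ¬ (y.2 = false ∧ y.1.src = i ∧ y.1.tgt = j)) : co i j y = 0 := by
  have hx : strand x = i := by simp [strand, h1]
  rw [hx] at h
  unfold co
  by_cases h3 : y.1.src = i
  · have h4 : y.2 = false := by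
      by_contra h5
      apply h
      simp only [Bool.not_eq_false] at h5
      simp [strand, h5, h3]
    have h5 : y.1.tgt ≠ i := by
      intro h6
      apply h
      simp [strand, h4, h6]
    have h6 : y.1.tgt ≠ j := fun h6 => h2 ⟨h4, h3, h6⟩
    simp [h5, h6]
  · simp [h3]

theorem hd_co_far (i j : Fin n) (hij : i ≠ j) (x y : End n) (h : strand x ≠ strand y) :
    hd i j x * co i j y = hd j i y * co j i x := by
  by_cases h1 : x.2 = false ∧ x.1.src = j ∧ x.1.tgt = i
  · by_cases h2 : y.2 = false ∧ y.1.src = i ∧ y.1.tgt = j
    · have hji := hij.symm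
      simp only [hd, co, if_pos h1, if_pos h2]
      simp [h1, h2, hij, hji]
      ring
    · rw [hd_co_zero i j x y h h1 h2]
      simp [hd, h2]
  · by_cases h2 : y.2 = false ∧ y.1.src = i ∧ y.1.tgt = j
    · rw [hd_co_zero j i y x h.symm h2 h1]
      simp [hd, h1]
    · simp [hd, h1, h2]

/-- the change under the exchange of two neighbours -/
def chg (i j : Fin n) (p : End n × End n) : ℤ := bil i j p.2 p.1 - bil i j p.1 p.2

theorem chg_order (i j : Fin n) (δ : Bool) (s : Bool) (x y : End n) :
    chg i j (order (δ == s) x y) =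
      (if δ then 1 else -1) * (if s then 1 else -1) * (bil i j y x - bil i j x y) := by
  cases δ <;> cases s <;> simp [order, chg]

theorem triple_formula (i j : Fin n) (p q r : End n × End n) (A B C D : List (End n)) :
    Φ i j (A ++ p.2 :: p.1 :: B ++ q.2 :: q.1 :: C ++ r.2 :: r.1 :: D) =
      Φ i j (A ++ p.1 :: p.2 :: B ++ q.1 :: q.2 :: C ++ r.1 :: r.2 :: D) +
        (chg i j p + chg i j q + chg i j r) := by
  simp only [Φ, ph_append, ph_cons, sc_cons, sc_append, sh_append, sh_cons, chg, bil]
  ring

theorem sgn_sq (α : Arrow n) : α.sgn * α.sgn = 1 := by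
  unfold Arrow.sgn
  split_ifs <;> norm_num

theorem triangle_sum (i j : Fin n) (hij : i ≠ j) (δ : Bool) (a b c : Arrow n)
    (hs : a.src = b.src) (hm : a.tgt = c.src) (ht : b.tgt = c.tgt) :
    ((triangle δ a b c).map (chg i j)).sum = 0 := by
  have h0 : chg i j (order ((δ == a.pos) == (b.pos == c.pos)) (a, true) (b, true)) = 0 := by
    cases h : ((δ == a.pos) == (b.pos == c.pos)) <;> simp [order, chg, bil, hd]
  simp only [triangle, List.map_cons, List.map_nil, List.sum_cons, List.sum_nil, h0, chg_order]
  have ha : (if a.pos then (1 : ℤ) else -1) = a.sgn := rfl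
  have hb : (if b.pos then (1 : ℤ) else -1) = b.sgn := rfl
  rw [ha, hb]
  have qa := sgn_sq a
  have qb := sgn_sq b
  have hji := hij.symm
  generalize (if δ then (1 : ℤ) else -1) = d
  simp only [bil, hd, co, ← hs, ← hm, ← ht]
  generalize a.src = t
  generalize a.tgt = m
  generalize b.tgt = u
  generalize a.sgn = x at *
  generalize b.sgn = y at *
  generalize c.sgn = z at *
  have hx : x * x = 1 := qa
  have hy : y * y = 1 := qb
  by_cases h1 : t = i
  · subst h1
    by_cases h3 : m = t
    · subst h3
      by_cases h5 : u = m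
      · subst h5; simp [hij]
      · by_cases h6 : u = j
        · subst h6; simp [hij, hji]
        · simp [h5, h6, hij]
    · by_cases h4 : m = j
      · subst h4
        by_cases h5 : u = t
        · subst h5; simp [hij, hji]; linear_combination (-d * z) * hx + (d * z) * hy
        · by_cases h6 : u = m
          · subst h6; simp [hij, hji]; linear_combination (d * z) * hx - (d * z) * hy
          · simp [h5, h6, hij, hji]
      · simp [h3, h4, hij, hji]
  · by_cases h2 : t = j
    · subst h2
      by_cases h3 : m = i
      · subst h3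
        by_cases h5 : u = m
        · subst h5; simp [hij, hji]; linear_combination (d * z) * hx - (d * z) * hy
        · by_cases h6 : u = t
          · subst h6; simp [hij, hji]; linear_combination (-d * z) * hx + (d * z) * hy
          · simp [h5, h6, hij, hji]
      · by_cases h4 : m = t
        · subst h4
          by_cases h5 : u = i
          · subst h5; simp [hij, hji]
          · by_cases h6 : u = m
            · subst h6; simp [hij, hji]
            · simp [h5, h6, hij, hji]
        · simp [h3, h4, hij, hji]
    · by_cases h3 : m = i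
      · subst h3
        simp [h1, h2, hij, hji]
      · by_cases h4 : m = j
        · subst h4; simp [h1, h2, hij, hji]
        · simp [h1, h2, h3, h4]

/-- invariance under generalized Reidemeister moves -/
theorem Φ_reid (i j : Fin n) (hij : i ≠ j) {v w : List (End n)} (h : Reidemeister v w) :
    Φ i j v = Φ i j w := by
  cases h with
  | rename g hg w => simp only [Φ, ph_map]
  | far x y h A B =>
    rw [swap_formula]
    have : bil i j y x = bil i j x y := by
      unfold bil
      rw [hd_co_far i j hij x y h, hd_co_far j i hij.symm x y h]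
      ring
    omega
  | r1 α h e A B =>
    simp only [Φ, ph_append, ph_cons, sc_cons, co_not, hd_self i j hij α h,
      hd_self j i hij.symm α h]
    ring
  | r2_parallel α β hs ht hp e A B C =>
    have a1 := hd_opp i j α β hs ht hp
    have a2 := hd_opp j i α β hs ht hp
    have a3 := co_opp i j α β hs ht hp
    have a4 := co_opp j i α β hs ht hp
    have b1 := hd_co_same i j hij α
    have b2 := hd_co_same j i hij.symm α
    simp only [Φ, ph_append, ph_cons, sc_cons, sh_append, sh_cons, a1, a2, a3, a4,
      co_not]
    have c1 := b1 e e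
    have c2 := b2 e e
    have c3 := b1 (!e) e
    have c4 := b2 (!e) e
    linear_combination (-1 : ℤ) * c1 - c2 + c3 + c4
  | r2_opposite α β hs ht hp e A B C =>
    have a1 := hd_opp i j α β hs ht hp
    have a2 := hd_opp j i α β hs ht hp
    have a3 := co_opp i j α β hs ht hp
    have a4 := co_opp j i α β hs ht hp
    have b1 := hd_co_same i j hij α
    have b2 := hd_co_same j i hij.symm α
    simp only [Φ, ph_append, ph_cons, sc_cons, sh_append, sh_cons, a1, a2, a3, a4,
      co_not]
    have c1 := b1 e e
    have c2 := b2 e e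
    have c3 := b1 (!e) e
    have c4 := b2 (!e) e
    linear_combination (-1 : ℤ) * c1 - c2 + c3 + c4
  | r3 δ a b c hs hm ht p q r h A B C D =>
    rw [triple_formula]
    have h1 := (h.map (chg i j)).sum_eq
    rw [triangle_sum i j hij δ a b c hs hm ht] at h1
    simp only [List.map_cons, List.map_nil, List.sum_cons, List.sum_nil] at h1
    omega

theorem Φ_oc (i j : Fin n) {v w : List (End n)} (h : OvercrossingsCommute v w) :
    Φ i j v = Φ i j w := by
  cases h with
  | mk α β h A B =>
    rw [swap_formula]
    simp [bil, hd_true]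

theorem Φ_sc (i j : Fin n) (hij : i ≠ j) {v w : List (End n)} (h : SelfCrossingChange v w) :
    Φ i j v = Φ i j w := by
  cases h with
  | mk α h e A B C =>
    have h1 : α.rev.src = α.rev.tgt := h.symm
    have e1 : ∀ e, hd i j (α, e) = 0 := hd_self i j hij α h
    have e2 : ∀ e, hd j i (α, e) = 0 := hd_self j i hij.symm α h
    have e3 : ∀ e, hd i j (α.rev, e) = 0 := hd_self i j hij α.rev h1
    have e4 : ∀ e, hd j i (α.rev, e) = 0 := hd_self j i hij.symm α.rev h1
    have hsg : α.rev.sgn = - α.sgn := by
      unfold Arrow.sgn Arrow.rev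
      cases α.pos <;> simp
    have e5 : ∀ (k l : Fin n) (e : Bool), co k l (α.rev, !e) = co k l (α, e) := by
      intro k l e
      have hs : α.rev.src = α.src := h.symm
      have ht : α.rev.tgt = α.tgt := h
      simp only [co, hs, ht, hsg]
      cases e <;> simp
    have e6 : ∀ (k l : Fin n) (e : Bool), co k l (α.rev, e) = co k l (α, !e) := by
      intro k l e
      have := e5 k l (!e)
      rw [Bool.not_not] at this
      exact this
    simp only [Φ, ph_append, ph_cons, sc_cons, sc_append, sh_append, sh_cons, e1, e2, e3, e4, e5,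
      e6]

theorem Φ_move (i j : Fin n) (hij : i ≠ j) {v w : List (End n)} (h : Move v w) :
    Φ i j v = Φ i j w := by
  rcases h with h | h | h
  · exact Φ_reid i j hij h
  · exact Φ_oc i j h
  · exact Φ_sc i j hij h

theorem Φ_monotone (i j : Fin n) (hij : i ≠ j) {w : List (End n)} (h : IsMonotone w) :
    Φ i j w = 0 := by
  obtain ⟨l, -, rfl⟩ := h
  have key : ∀ (i j : Fin n), i ≠ j → ∀ l : List (Arrow n),
      sc i j (l.flatMap fun α => [(α, true), (α, false)]) = 0 := by
    intro i j hij l
    induction l with
    | nil => rfl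
    | cons α l ih =>
      rw [List.flatMap_cons, sc_append, ih]
      have := co_not i j α true
      simp only [Bool.not_true] at this
      simp [sc, this]
  have key2 : ∀ (i j : Fin n), i ≠ j → ∀ l : List (Arrow n),
      ph i j (l.flatMap fun α => [(α, true), (α, false)]) = 0 := by
    intro i j hij l
    induction l with
    | nil => rfl
    | cons α l ih =>
      rw [List.flatMap_cons, ph_append, ih, key i j hij]
      simp [ph, hd_true, sc]
  rw [Φ, key2 i j hij, key2 j i hij.symm, add_zero]

end Pool.Agent.W612.WSL
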