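import Mathlib
import Pool.Agent.W612.WSL.Monoid
import Pool.Agent.W612.WSL.Inv

/-!
# An invertible welded string link up to self-crossing changes which is not a braid
-/

set_option autoImplicit false

namespace Pool.Agent.W612.WSL

variable {n : ℕ}

open Classical in
/-- the class of a list -/
noncomputable def c (w : List (End n)) : WSLsc n := if h : IsGauss w then cls ⟨w, h⟩ else 1

theorem c_of {w : List (End n)} (h : IsGauss w) : c w = cls ⟨w, h⟩ := dif_pos h

theorem c_move {v w : List (End n)} (hv : IsGauss v) (hw : IsGauss w) (h : Move v w) :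
    c v = c w := by
  rw [c_of hv, c_of hw]
  exact cls_eq h

theorem IsGauss.perm {v w : List (End n)} (h : v.Perm w) (hv : IsGauss v) : IsGauss w := by
  refine ⟨(h.map _).nodup_iff.mp hv.1, fun x hx => ?_⟩
  exact h.mem_iff.mp (hv.2 x (h.mem_iff.mpr hx))

theorem c_far (A B u : List (End n)) (x : End n) (hu : ∀ y ∈ u, strand y ≠ strand x)
    (h : IsGauss (A ++ u ++ x :: B)) : c (A ++ u ++ x :: B) = c (A ++ x :: u ++ B) := by
  induction u using List.reverseRecOn generalizing B with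
  | nil => simp
  | append_singleton u y ih =>
    have h1 : IsGauss (A ++ u ++ x :: y :: B) := by
      refine h.perm ?_
      simp only [List.append_assoc, List.singleton_append]
      refine List.Perm.append_left _ (List.Perm.append_left _ ?_)
      exact List.Perm.swap _ _ _
    have h2 := ih (y :: B) (fun z hz => hu z (by simp [hz])) h1
    have h3 : c (A ++ (u ++ [y]) ++ x :: B) = c (A ++ u ++ x :: y :: B) := by
      refine c_move h h1 (Or.inl ?_)
      have := Reidemeister.far y x (hu y (by simp)) (A ++ u) B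
      simpa [List.append_assoc] using this
    rw [h3, h2]
    simp [List.append_assoc]

theorem c_swap_tails (A B : List (End n)) (x y : End n) (hx : x.2 = true) (hy : y.2 = true)
    (h : IsGauss (A ++ x :: y :: B)) : c (A ++ x :: y :: B) = c (A ++ y :: x :: B) := by
  have h1 : IsGauss (A ++ y :: x :: B) :=
    h.perm (List.Perm.append_left _ (List.Perm.swap _ _ _))
  refine c_move h h1 ?_
  by_cases h2 : strand x = strand y
  · refine Or.inr (Or.inl ?_)
    obtain ⟨α, e⟩ := x
    obtain ⟨β, f⟩ := y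
    simp only at hx hy
    subst hx hy
    exact OvercrossingsCommute.mk α β h2 A B
  · exact Or.inl (Reidemeister.far x y h2 A B)

theorem c_perm_tails {T T' : List (End n)} (hp : T.Perm T') :
    ∀ (A B : List (End n)), (∀ x ∈ T, x.2 = true) → IsGauss (A ++ T ++ B) →
      c (A ++ T ++ B) = c (A ++ T' ++ B) := by
  induction hp with
  | nil => intros; rfl
  | cons x _ ih =>
    intro A B hT h
    have := ih (A ++ [x]) B (fun y hy => hT y (by simp [hy])) (by simpa using h)
    simpa using this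
  | swap x y l =>
    intro A B hT h
    have := c_swap_tails A (l ++ B) y x (hT y (by simp)) (hT x (by simp)) (by simpa using h)
    simpa using this
  | trans p1 p2 ih1 ih2 =>
    intro A B hT h
    have hT' := fun x hx => hT x (p1.mem_iff.mpr hx)
    rw [ih1 A B hT h]
    refine ih2 A B hT' (h.perm ?_)
    exact ((p1.append_left A).append_right B)

/-- sliding the arrow `e` over the heads of `a` and `b` -/
theorem c_slide (δ : Bool) (a b e : Arrow n) (hs : a.src = b.src) (hm : a.tgt = e.src)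
    (ht : b.tgt = e.tgt) (q r : End n × End n) (hq : q = order (δ == a.pos) (a, false) (e, true))
    (hr : r = order (δ == b.pos) (b, false) (e, false)) (A B C D : List (End n))
    (h : IsGauss (A ++ (a, true) :: (b, true) :: B ++ q.1 :: q.2 :: C ++ r.1 :: r.2 :: D)) :
    c (A ++ (a, true) :: (b, true) :: B ++ q.1 :: q.2 :: C ++ r.1 :: r.2 :: D) =
      c (A ++ (a, true) :: (b, true) :: B ++ q.2 :: q.1 :: C ++ r.2 :: r.1 :: D) := by
  have hpe : ∀ (x y z w u v : End n), (A ++ x :: y :: B ++ z :: w :: C ++ u :: v :: D).Perm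
      (A ++ y :: x :: B ++ w :: z :: C ++ v :: u :: D) := by
    intro x y z w u v
    refine List.Perm.append (List.Perm.append (List.Perm.append_left _ (List.Perm.swap _ _ _))
      (List.Perm.swap _ _ _)) (List.Perm.swap _ _ _)
  have hpe2 : ∀ (x y z w u v : End n), (A ++ x :: y :: B ++ z :: w :: C ++ u :: v :: D).Perm
      (A ++ y :: x :: B ++ z :: w :: C ++ u :: v :: D) := by
    intro x y z w u v
    exact List.Perm.append_right _ (List.Perm.append_right _
      (List.Perm.append_left _ (List.Perm.swap _ _ _)))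
  cases ho : ((δ == a.pos) == (b.pos == e.pos))
  · -- the tail of `b` comes first
    have h1 : IsGauss (A ++ (b, true) :: (a, true) :: B ++ q.1 :: q.2 :: C ++ r.1 :: r.2 :: D) :=
      h.perm (hpe2 _ _ _ _ _ _)
    have h2 := h1.perm (hpe _ _ _ _ _ _)
    have e1 : c (A ++ (a, true) :: (b, true) :: B ++ q.1 :: q.2 :: C ++ r.1 :: r.2 :: D) =
        c (A ++ (b, true) :: (a, true) :: B ++ q.1 :: q.2 :: C ++ r.1 :: r.2 :: D) := by
      have := c_swap_tails A (B ++ q.1 :: q.2 :: C ++ r.1 :: r.2 :: D) (a, true) (b, true) rfl rfl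
        (by simpa [List.append_assoc] using h)
      simpa [List.append_assoc] using this
    rw [e1]
    refine c_move h1 h2 (Or.inl ?_)
    refine Reidemeister.r3 δ a b e hs hm ht ((b, true), (a, true)) q r ?_ A B C D
    subst hq hr
    refine List.Perm.of_eq ?_
    simp [triangle, ho, order]
  · have h2 := h.perm (hpe _ _ _ _ _ _)
    have e1 : c (A ++ (b, true) :: (a, true) :: B ++ q.2 :: q.1 :: C ++ r.2 :: r.1 :: D) =
        c (A ++ (a, true) :: (b, true) :: B ++ q.2 :: q.1 :: C ++ r.2 :: r.1 :: D) := by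
      have := c_swap_tails A (B ++ q.2 :: q.1 :: C ++ r.2 :: r.1 :: D) (b, true) (a, true) rfl rfl
        (by simpa [List.append_assoc] using h2)
      simpa [List.append_assoc] using this
    rw [← e1]
    refine c_move h h2 (Or.inl ?_)
    refine Reidemeister.r3 δ a b e hs hm ht ((a, true), (b, true)) q r ?_ A B C D
    subst hq hr
    refine List.Perm.of_eq ?_
    simp [triangle, ho, order]

/-- The self-arrow named `k` on the strand `i`. -/
def sA (i : Fin n) (k : ℕ) (ε : Bool) : Arrow n := ⟨k, i, i, ε⟩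

/-- The arrow named `k` from the strand `j` to the strand `i`. -/
def hA (i j : Fin n) (k : ℕ) (ε : Bool) : Arrow n := ⟨k, j, i, ε⟩

/-- The diagram: the strand `i` passes under the strand `j` between the two passages of a
self-crossing (of sign `ε`), and once more after it, with the opposite sign. -/
def U (i j : Fin n) (ε : Bool) : List (End n) :=
  [(hA i j 1 true, true), (hA i j 2 false, true), (sA i 0 ε, true), (hA i j 1 true, false),
    (sA i 0 ε, false), (hA i j 2 false, false)]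

theorem U_gauss (i j : Fin n) (ε : Bool) : IsGauss (U i j ε) := by
  constructor
  · simp [U, hA, sA]
  · simp [U]

/-- the other end of a self-arrow commutes with a tail -/
theorem c_swap_self (i : Fin n) (k l : ℕ) (ε σ : Bool) (A B C : List (End n))
    (h : IsGauss (A ++ (sA i k ε, true) :: B ++ (sA i k ε, false) :: (sA i l σ, true) :: C))
    (g1 : IsGauss (A ++ (sA i k (!ε), false) :: B ++ (sA i k (!ε), true) ::
      (sA i l σ, true) :: C)) :
    c (A ++ (sA i k ε, true) :: B ++ (sA i k ε, false) :: (sA i l σ, true) :: C) =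
      c (A ++ (sA i k ε, true) :: B ++ (sA i l σ, true) :: (sA i k ε, false) :: C) := by
  have g2 : IsGauss (A ++ (sA i k (!ε), false) :: B ++ (sA i l σ, true) ::
      (sA i k (!ε), true) :: C) :=
    g1.perm (List.Perm.append_left _ (List.Perm.swap _ _ _))
  have g3 : IsGauss (A ++ (sA i k ε, true) :: B ++ (sA i l σ, true) ::
      (sA i k ε, false) :: C) :=
    h.perm (List.Perm.append_left _ (List.Perm.swap _ _ _))
  have e1 : c (A ++ (sA i k ε, true) :: B ++ (sA i k ε, false) :: (sA i l σ, true) :: C) =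
      c (A ++ (sA i k (!ε), false) :: B ++ (sA i k (!ε), true) :: (sA i l σ, true) :: C) := by
    refine c_move h g1 (Or.inr (Or.inr ?_))
    exact SelfCrossingChange.mk (sA i k ε) rfl true A B ((sA i l σ, true) :: C)
  have e2 := c_swap_tails (A ++ (sA i k (!ε), false) :: B) C (sA i k (!ε), true) (sA i l σ, true)
    rfl rfl g1
  have e3 : c (A ++ (sA i k ε, true) :: B ++ (sA i l σ, true) :: (sA i k ε, false) :: C) =
      c (A ++ (sA i k (!ε), false) :: B ++ (sA i l σ, true) :: (sA i k (!ε), true) :: C) := by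
    refine c_move g3 g2 (Or.inr (Or.inr ?_))
    have := SelfCrossingChange.mk (sA i k ε) rfl true A (B ++ [(sA i l σ, true)]) C
    have hr : (sA i k ε).rev = sA i k (!ε) := rfl
    rw [hr] at this
    simpa [List.append_assoc] using this
  rw [e1, e2, ← e3]

/-- The product of the diagrams with self-crossings of opposite signs is trivial. -/
theorem U_mul (i j : Fin n) (hij : i ≠ j) (ε : Bool) :
    c (stack (U i j ε) (U i j (!ε))) = 1 := by
  -- names
  set T2 : End n := (hA i j 2 true, true) with hT2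
  set T3 : End n := (hA i j 3 true, true) with hT3
  set T4 : End n := (hA i j 4 false, true) with hT4
  set T5 : End n := (hA i j 5 false, true) with hT5
  set T6 : End n := (hA i j 6 true, true) with hT6
  set T7 : End n := (hA i j 7 false, true) with hT7
  set h2 : End n := (hA i j 2 true, false) with hh2
  set h3 : End n := (hA i j 3 true, false) with hh3
  set h4 : End n := (hA i j 4 false, false) with hh4
  set h5 : End n := (hA i j 5 false, false) with hh5
  set h6 : End n := (hA i j 6 true, false) with hh6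
  set h7 : End n := (hA i j 7 false, false) with hh7
  set s0t : End n := (sA i 0 ε, true) with hs0t
  set s0h : End n := (sA i 0 ε, false) with hs0h
  set s1t : End n := (sA i 1 (!ε), true) with hs1t
  set s1h : End n := (sA i 1 (!ε), false) with hs1h
  have w0 : stack (U i j ε) (U i j (!ε)) =
      [T2, T4, s0t, h2, s0h, h4, T3, T5, s1t, h3, s1h, h5] := by
    simp [stack, U, ren, Arrow.rename, hA, sA, T2, T4, s0t, h2, s0h, h4, T3, T5, s1t, h3, s1h, h5]
  have g0 : IsGauss [T2, T4, s0t, h2, s0h, h4, T3, T5, s1t, h3, s1h, h5] := by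
    constructor
    · simp [hA, sA, T2, T4, s0t, h2, s0h, h4, T3, T5, s1t, h3, s1h, h5]
    · simp [T2, T4, s0t, h2, s0h, h4, T3, T5, s1t, h3, s1h, h5]
  have hji := hij.symm
  have e1 : c [T2, T4, s0t, h2, s0h, h4, T3, T5, s1t, h3, s1h, h5] =
      c [T2, T4, T3, s0t, h2, s0h, h4, T5, s1t, h3, s1h, h5] :=
    c_far [T2, T4] [T5, s1t, h3, s1h, h5] [s0t, h2, s0h, h4] T3
      (by simp [strand, hA, sA, T3, s0t, h2, s0h, h4, hij]) g0
  have g1 : IsGauss [T2, T4, T3, s0t, h2, s0h, h4, T5, s1t, h3, s1h, h5] := by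
    constructor
    · simp [hA, sA, T2, T4, s0t, h2, s0h, h4, T3, T5, s1t, h3, s1h, h5]
    · simp [T2, T4, s0t, h2, s0h, h4, T3, T5, s1t, h3, s1h, h5]
  have e2 : c [T2, T4, T3, s0t, h2, s0h, h4, T5, s1t, h3, s1h, h5] =
      c [T2, T4, T3, T5, s0t, h2, s0h, h4, s1t, h3, s1h, h5] :=
    c_far [T2, T4, T3] [s1t, h3, s1h, h5] [s0t, h2, s0h, h4] T5
      (by simp [strand, hA, sA, T5, s0t, h2, s0h, h4, hij]) g1
  have g2 : IsGauss [T2, T4, T3, T5, s0t, h2, s0h, h4, s1t, h3, s1h, h5] := by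
    constructor
    · simp [hA, sA, T2, T4, s0t, h2, s0h, h4, T3, T5, s1t, h3, s1h, h5]
    · simp [T2, T4, s0t, h2, s0h, h4, T3, T5, s1t, h3, s1h, h5]
  have g3 : IsGauss [T2, T4, T3, T5, T6, T7, s0t, h2, s0h, h4, s1t, h3, s1h, h6, h7, h5] := by
    constructor
    · simp [hA, sA, T2, T4, s0t, h2, s0h, h4, T3, T5, s1t, h3, s1h, h5, T6, T7, h6, h7]
    · simp [T2, T4, s0t, h2, s0h, h4, T3, T5, s1t, h3, s1h, h5, T6, T7, h6, h7]
  have e3 : c [T2, T4, T3, T5, T6, T7, s0t, h2, s0h, h4, s1t, h3, s1h, h6, h7, h5] =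
      c [T2, T4, T3, T5, s0t, h2, s0h, h4, s1t, h3, s1h, h5] := by
    refine c_move g3 g2 (Or.inl ?_)
    exact Reidemeister.r2_parallel (hA i j 6 true) (hA i j 7 false) rfl rfl (by simp [hA]) true
      [T2, T4, T3, T5] [s0t, h2, s0h, h4, s1t, h3, s1h] [h5]
  have e4 : c [T2, T4, T3, T5, T6, T7, s0t, h2, s0h, h4, s1t, h3, s1h, h6, h7, h5] =
      c [T4, T6, T2, T7, T3, T5, s0t, h2, s0h, h4, s1t, h3, s1h, h6, h7, h5] :=
    c_perm_tails (T := [T2, T4, T3, T5, T6, T7]) (T' := [T4, T6, T2, T7, T3, T5])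
      (by
        have := (by decide : ([0, 1, 2, 3, 4, 5] : List (Fin 6)).Perm [1, 4, 0, 5, 2, 3]).map
          ![T2, T4, T3, T5, T6, T7]
        simpa using this) [] [s0t, h2, s0h, h4, s1t, h3, s1h, h6, h7, h5]
      (by simp [T2, T3, T4, T5, T6, T7]) g3
  have g4 : IsGauss [T4, T6, T2, T7, T3, T5, s0t, h2, s0h, h4, s1t, h3, s1h, h6, h7, h5] := by
    constructor
    · simp [hA, sA, T2, T4, s0t, h2, s0h, h4, T3, T5, s1t, h3, s1h, h5, T6, T7, h6, h7]
    · simp [T2, T4, s0t, h2, s0h, h4, T3, T5, s1t, h3, s1h, h5, T6, T7, h6, h7]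
  have e5 : c [T4, T6, T2, T7, T3, T5, s0t, h2, s0h, h4, s1t, h3, s1h, h6, h7, h5] =
      c [T4, T6, T2, T7, T3, T5, s0t, h2, s0h, s1t, h4, h3, h6, s1h, h7, h5] :=
    c_slide false (hA i j 4 false) (hA i j 6 true) (sA i 1 (!ε)) rfl rfl rfl (h4, s1t) (s1h, h6)
      rfl rfl [] [T2, T7, T3, T5, s0t, h2, s0h] [h3] [h7, h5] g4
  have g5 : IsGauss [T4, T6, T2, T7, T3, T5, s0t, h2, s0h, s1t, h4, h3, h6, s1h, h7, h5] := by
    constructor
    · simp [hA, sA, T2, T4, s0t, h2, s0h, h4, T3, T5, s1t, h3, s1h, h5, T6, T7, h6, h7]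
    · simp [T2, T4, s0t, h2, s0h, h4, T3, T5, s1t, h3, s1h, h5, T6, T7, h6, h7]
  have e6 : c [T4, T6, T2, T7, T3, T5, s0t, h2, s0h, s1t, h4, h3, h6, s1h, h7, h5] =
      c [T4, T6, T2, T7, T3, T5, s0t, h2, s1t, s0h, h4, h3, h6, s1h, h7, h5] :=
    c_swap_self i 0 1 ε (!ε) [T4, T6, T2, T7, T3, T5] [h2] [h4, h3, h6, s1h, h7, h5] g5
      (by
        constructor
        · simp [hA, sA, T2, T4, h2, h4, T3, T5, h3, s1h, h5, T6, T7, h6, h7]
        · simp [T2, T4, h2, h4, T3, T5, h3, s1h, h5, T6, T7, h6, h7])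
  have g6 : IsGauss [T4, T6, T2, T7, T3, T5, s0t, h2, s1t, s0h, h4, h3, h6, s1h, h7, h5] := by
    constructor
    · simp [hA, sA, T2, T4, s0t, h2, s0h, h4, T3, T5, s1t, h3, s1h, h5, T6, T7, h6, h7]
    · simp [T2, T4, s0t, h2, s0h, h4, T3, T5, s1t, h3, s1h, h5, T6, T7, h6, h7]
  have e7 : c [T4, T6, T2, T7, T3, T5, s0t, h2, s1t, s0h, h4, h3, h6, s1h, h7, h5] =
      c [T4, T6, T2, T7, T3, T5, s0t, s1t, h2, s0h, h4, h3, h6, h7, s1h, h5] :=
    c_slide true (hA i j 2 true) (hA i j 7 false) (sA i 1 (!ε)) rfl rfl rfl (h2, s1t) (s1h, h7)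
      rfl rfl [T4, T6] [T3, T5, s0t] [s0h, h4, h3, h6] [h5] g6
  have g7 : IsGauss [T4, T6, T2, T7, T3, T5, s0t, s1t, h2, s0h, h4, h3, h6, h7, s1h, h5] := by
    constructor
    · simp [hA, sA, T2, T4, s0t, h2, s0h, h4, T3, T5, s1t, h3, s1h, h5, T6, T7, h6, h7]
    · simp [T2, T4, s0t, h2, s0h, h4, T3, T5, s1t, h3, s1h, h5, T6, T7, h6, h7]
  have e8 : c [T4, T6, T2, T7, T3, T5, s0t, s1t, h2, s0h, h4, h3, h6, h7, s1h, h5] =
      c [T4, T3, T6, T7, T2, T5, s0t, s1t, h2, s0h, h4, h3, h6, h7, s1h, h5] :=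
    c_perm_tails (T := [T4, T6, T2, T7, T3, T5]) (T' := [T4, T3, T6, T7, T2, T5])
      (by
        have := (by decide : ([0, 1, 2, 3, 4, 5] : List (Fin 6)).Perm [0, 4, 1, 3, 2, 5]).map
          ![T4, T6, T2, T7, T3, T5]
        simpa using this) [] [s0t, s1t, h2, s0h, h4, h3, h6, h7, s1h, h5]
      (by simp [T2, T3, T4, T5, T6, T7]) g7
  have g8 : IsGauss [T4, T3, T6, T7, T2, T5, s0t, s1t, h2, s0h, h4, h3, h6, h7, s1h, h5] := by
    constructor
    · simp [hA, sA, T2, T4, s0t, h2, s0h, h4, T3, T5, s1t, h3, s1h, h5, T6, T7, h6, h7]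
    · simp [T2, T4, s0t, h2, s0h, h4, T3, T5, s1t, h3, s1h, h5, T6, T7, h6, h7]
  have g9 : IsGauss [T6, T7, T2, T5, s0t, s1t, h2, s0h, h6, h7, s1h, h5] := by
    constructor
    · simp [hA, sA, T2, s0t, h2, s0h, T5, s1t, s1h, h5, T6, T7, h6, h7]
    · simp [T2, s0t, h2, s0h, T5, s1t, s1h, h5, T6, T7, h6, h7]
  have e9 : c [T4, T3, T6, T7, T2, T5, s0t, s1t, h2, s0h, h4, h3, h6, h7, s1h, h5] =
      c [T6, T7, T2, T5, s0t, s1t, h2, s0h, h6, h7, s1h, h5] := by
    refine c_move g8 g9 (Or.inl ?_)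
    exact Reidemeister.r2_parallel (hA i j 4 false) (hA i j 3 true) rfl rfl (by simp [hA]) true
      [] [T6, T7, T2, T5, s0t, s1t, h2, s0h] [h6, h7, s1h, h5]
  have g10 : IsGauss [T2, T5, s0t, s1t, h2, s0h, s1h, h5] := by
    constructor
    · simp [hA, sA, T2, s0t, h2, s0h, T5, s1t, s1h, h5]
    · simp [T2, s0t, h2, s0h, T5, s1t, s1h, h5]
  have e10 : c [T6, T7, T2, T5, s0t, s1t, h2, s0h, h6, h7, s1h, h5] =
      c [T2, T5, s0t, s1t, h2, s0h, s1h, h5] := by
    refine c_move g9 g10 (Or.inl ?_)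
    exact Reidemeister.r2_parallel (hA i j 6 true) (hA i j 7 false) rfl rfl (by simp [hA]) true
      [] [T2, T5, s0t, s1t, h2, s0h] [s1h, h5]
  have g11 : IsGauss [T2, T5, h2, h5] := by
    constructor
    · simp [hA, T2, h2, T5, h5]
    · simp [T2, h2, T5, h5]
  have e11 : c [T2, T5, s0t, s1t, h2, s0h, s1h, h5] = c [T2, T5, h2, h5] := by
    refine c_move g10 g11 (Or.inl ?_)
    exact Reidemeister.r2_parallel (sA i 0 ε) (sA i 1 (!ε)) rfl rfl (by simp [sA]) true
      [T2, T5] [h2] [h5]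
  have e12 : c [T2, T5, h2, h5] = c ([] : List (End n)) := by
    refine c_move g11 isGauss_nil (Or.inl ?_)
    exact Reidemeister.r2_parallel (hA i j 2 true) (hA i j 5 false) rfl rfl (by simp [hA]) true
      [] [] []
  rw [w0, e1, e2, ← e3, e4, e5, e6, e7, e8, e9, e10, e11, e12, c_of isGauss_nil, cls_one]

/-- The unit of `wSL_n^sc`. -/
noncomputable def theUnit (i j : Fin n) (hij : i ≠ j) : (WSLsc n)ˣ where
  val := cls ⟨U i j true, U_gauss i j true⟩
  inv := cls ⟨U i j false, U_gauss i j false⟩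
  val_inv := by
    have := U_mul i j hij true
    rw [Bool.not_true, c_of ((U_gauss i j true).stack (U_gauss i j false))] at this
    exact this
  inv_val := by
    have := U_mul i j hij false
    rw [Bool.not_false, c_of ((U_gauss i j false).stack (U_gauss i j true))] at this
    exact this

theorem cls_inv (i j : Fin n) (hij : i ≠ j) {v w : Diagram n} (h : cls v = cls w) :
    Φ i j v.1 = Φ i j w.1 := by
  have h1 := congrArg (Quot.lift (fun v : Diagram n => Φ i j v.1)
    fun _ _ h => Φ_move i j hij h) h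
  exact h1

theorem Φ_U (i j : Fin n) (hij : i ≠ j) : Φ i j (U i j true) = 1 := by
  have hji := hij.symm
  simp [Φ, ph, U, hd, co, sc, hA, sA, Arrow.sgn, hij, hji]

/-- For `n ≥ 2` the group of units of `wSL_n^sc` contains elements which are not represented by
monotone diagrams. -/
theorem exists_unit (hn : 2 ≤ n) :
    ∃ u : (WSLsc n)ˣ, ∀ D : Diagram n, IsMonotone D.1 → (u : WSLsc n) ≠ cls D := by
  obtain ⟨i, j, hij⟩ : ∃ i j : Fin n, i ≠ j :=
    ⟨⟨0, by omega⟩, ⟨1, by omega⟩, by simp [Fin.ext_iff]⟩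
  refine ⟨theUnit i j hij, fun D hD h => ?_⟩
  have h1 := cls_inv i j hij h
  rw [Φ_monotone i j hij hD, Φ_U i j hij] at h1
  exact one_ne_zero h1

end Pool.Agent.W612.WSL
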